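import Mathlib
import Pool.Agent.H540R2.Lift.Prog
import Pool.Agent.W953.NW.Win

/-!
# Layered circuits: both phases, and the OR of many functions
-/

set_option autoImplicit false

namespace Pool.Agent.W953.SC

open Pool.Agent.H540R2 Pool.Agent.H540R2.Circuit Pool.Agent.H540R2.Lift Pool.Agent.W953.NW

variable {n : ℕ}

/-! ### both phases -/

lemma posN_w {a : Node n} {j : ℕ} (h : (posN a).wires j ≠ 0) : a.wires (j / 2) ≠ 0 := by
  cases a with
  | var i => exact absurd rfl h
  | const b => exact absurd rfl h
  | gate k =>
    simp only [posN, Node.wires] at h ⊢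
    by_cases hk : 2 * k = j
    · have : k = j / 2 := by omega
      rw [if_pos this]
      exact one_ne_zero
    · exact absurd (if_neg hk) h

lemma negN_w {a : Node n} {j : ℕ} (h : (negN a).wires j ≠ 0) : a.wires (j / 2) ≠ 0 := by
  cases a with
  | var i => exact absurd rfl h
  | const b => exact absurd rfl h
  | gate k =>
    simp only [negN, Node.wires] at h ⊢
    by_cases hk : 2 * k + 1 = j
    · have : k = j / 2 := by omega
      rw [if_pos this]
      exact one_ne_zero
    · exact absurd (if_neg hk) h

lemma posG_w {g : Gate n} {j : ℕ} (h : (posG g).wires j ≠ 0) : g.wires (j / 2) ≠ 0 := by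
  cases g with
  | and a b =>
    rcases add_ne_zero_cases h with h | h
    · have := posN_w h
      simp only [Gate.wires]
      omega
    · have := posN_w h
      simp only [Gate.wires]
      omega
  | or a b =>
    rcases add_ne_zero_cases h with h | h
    · have := posN_w h
      simp only [Gate.wires]
      omega
    · have := posN_w h
      simp only [Gate.wires]
      omega
  | not a =>
    rcases add_ne_zero_cases h with h | h
    · exact negN_w h
    · exact negN_w h

lemma negG_w {g : Gate n} {j : ℕ} (h : (negG g).wires j ≠ 0) : g.wires (j / 2) ≠ 0 := by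
  cases g with
  | and a b =>
    rcases add_ne_zero_cases h with h | h
    · have := negN_w h
      simp only [Gate.wires]
      omega
    · have := negN_w h
      simp only [Gate.wires]
      omega
  | or a b =>
    rcases add_ne_zero_cases h with h | h
    · have := negN_w h
      simp only [Gate.wires]
      omega
    · have := negN_w h
      simp only [Gate.wires]
      omega
  | not a =>
    rcases add_ne_zero_cases h with h | h
    · exact posN_w h
    · exact posN_w h

/-- the circuit for both phases has twice the width -/
theorem dual_layered {C : Circuit n} {w : ℕ} (h : C.Layered w) : (dual C).Layered (2 * w) := by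
  classical
  obtain ⟨d, lay, h1, h2, ⟨o, ho, ho2, ho3⟩, h4⟩ := h
  refine ⟨d, fun i => lay (i / 2), fun i hi => ?_, fun i hi j hj => ?_, ?_, fun l => ?_⟩
  · have hi' : i < 2 * C.size := hi
    exact h1 (i / 2) (by omega)
  · have hi' : i < 2 * C.size := hi
    refine h2 (i / 2) (by omega) (j / 2) ?_
    have hg : (dual C).gate i = if i % 2 = 0 then posG (C.gate (i / 2)) else
        negG (C.gate (i / 2)) := rfl
    rw [hg] at hj
    split_ifs at hj
    · exact posG_w hj
    · exact negG_w hj
  · refine ⟨2 * o, ?_, ?_, ?_⟩
    · show 2 * o < 2 * C.size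
      omega
    · show posN C.out = _
      rw [ho2]
      rfl
    · show lay (2 * o / 2) = d
      rw [Nat.mul_div_cancel_left o (by norm_num)]
      exact ho3
  · have hsub : (Finset.range (dual C).size).filter (fun i => lay (i / 2) = l) ⊆
        ((Finset.range C.size).filter (fun i => lay i = l)).biUnion
          (fun i => {2 * i, 2 * i + 1}) := by
      intro i hi
      rw [Finset.mem_filter, Finset.mem_range] at hi
      have hi' : i < 2 * C.size := hi.1
      rw [Finset.mem_biUnion]
      refine ⟨i / 2, ?_, ?_⟩
      · rw [Finset.mem_filter, Finset.mem_range]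
        exact ⟨by omega, hi.2⟩
      · rw [Finset.mem_insert, Finset.mem_singleton]
        omega
    refine (Finset.card_le_card hsub).trans ((Finset.card_biUnion_le).trans ?_)
    calc ∑ i ∈ (Finset.range C.size).filter (fun i => lay i = l), ({2 * i, 2 * i + 1} : Finset ℕ).card
        ≤ ∑ _i ∈ (Finset.range C.size).filter (fun i => lay i = l), 2 :=
          Finset.sum_le_sum (fun i _ => Finset.card_le_two)
      _ = ((Finset.range C.size).filter (fun i => lay i = l)).card * 2 := by simp
      _ ≤ 2 * w := by have := h4 l; omega

/-! ### the OR of many functions -/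

variable {s : ℕ}

/-- operands -/
def nd (s : ℕ) : Node n → LNode (Option (Fin s)) n
  | .var i => .var i
  | .const b => .const b
  | .gate j => if h : j < s then .reg (some ⟨j, h⟩) else .const false

/-- gates -/
def gt (s : ℕ) : Gate n → LGate (Option (Fin s)) n
  | .and a b => .and (nd s a) (nd s b)
  | .or a b => .or (nd s a) (nd s b)
  | .not _ => .and (.const false) (.const false)

/-- keep the register -/
def cpy {R : Type} (r : R) : LGate R n := .and (.reg r) (.const true)

/-- compute gate `i` -/
def stp (s : ℕ) (C : Circuit n) (i : ℕ) : Step (Option (Fin s)) n := fun r =>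
  match r with
  | none => cpy none
  | some k => if k.val = i then gt s (C.gate i) else cpy (some k)

/-- add the output to the accumulator -/
def fin (s : ℕ) (C : Circuit n) : Step (Option (Fin s)) n := fun r =>
  match r with
  | none => .or (.reg none) (nd s C.out)
  | some k => cpy (some k)

/-- the program of a circuit -/
def blkP (s : ℕ) (C : Circuit n) : List (Step (Option (Fin s)) n) :=
  (List.range C.size).map (stp s C) ++ [fin s C]

lemma nd_eval {a : Node n} {x : Fin n → Bool} {v : Option (Fin s) → Bool} {w : ℕ → Bool}
    (h : ∀ j, a.wires j ≠ 0 → ∃ hj : j < s, v (some ⟨j, hj⟩) = w j) :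
    (nd s a).eval x v = a.eval x w := by
  cases a with
  | var i => rfl
  | const b => rfl
  | gate j =>
    obtain ⟨hj, h2⟩ := h j (by simp [Node.wires])
    simp only [nd, dif_pos hj]
    exact h2

lemma cpy_eval {R : Type} (x : Fin n → Bool) (v : R → Bool) (r : R) :
    (cpy r : LGate R n).eval x v = v r := by
  simp [cpy, LGate.eval, LNode.eval]

lemma run_stps {C : Circuit n} (hC : C.Monotone) (_ : C.size ≤ s) (x : Fin n → Bool)
    (v : Option (Fin s) → Bool) : ∀ k ≤ C.size,
    run x ((List.range k).map (stp s C)) v none = v none ∧
    ∀ j, (hj : j < s) → j < k → run x ((List.range k).map (stp s C)) v (some ⟨j, hj⟩) =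
      C.val x j := by
  intro k
  induction k with
  | zero =>
    intro _
    exact ⟨rfl, fun j hj h => absurd h (by omega)⟩
  | succ k ih =>
    intro hk
    obtain ⟨h1, h2⟩ := ih (by omega)
    rw [List.range_succ, List.map_append, run_append]
    refine ⟨?_, fun j hj hjk => ?_⟩
    · show (stp s C k none).eval x _ = _
      rw [show stp s C k none = cpy none from rfl, cpy_eval]
      exact h1
    · show (stp s C k (some ⟨j, hj⟩)).eval x _ = _
      by_cases hjk' : j = k
      · subst hjk'
        have hg : stp s C j (some ⟨j, hj⟩) = gt s (C.gate j) := by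
          simp [stp]
        rw [hg, C.val_gate (by omega)]
        have hw : ∀ a : Node n, (∀ i, a.wires i ≠ 0 → (C.gate j).wires i ≠ 0) →
            (nd s a).eval x (run x ((List.range j).map (stp s C)) v) = a.eval x (C.val x) := by
          intro a ha
          refine nd_eval (fun i hi => ?_)
          have h3 := C.gate_lt j (by omega) i (ha i hi)
          exact ⟨by omega, h2 i (by omega) h3⟩
        cases hc : C.gate j with
        | and a b =>
          have e1 := hw a (fun i hi => by rw [hc]; simp only [Gate.wires]; omega)
          have e2 := hw b (fun i hi => by rw [hc]; simp only [Gate.wires]; omega)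
          simp only [gt, LGate.eval, Gate.eval, e1, e2]
        | or a b =>
          have e1 := hw a (fun i hi => by rw [hc]; simp only [Gate.wires]; omega)
          have e2 := hw b (fun i hi => by rw [hc]; simp only [Gate.wires]; omega)
          simp only [gt, LGate.eval, Gate.eval, e1, e2]
        | not a => exact absurd hc (hC j (by omega) a)
      · have hg : stp s C k (some ⟨j, hj⟩) = cpy (some ⟨j, hj⟩) := by
          simp [stp, hjk']
        rw [hg, cpy_eval]
        exact h2 j hj (by omega)

lemma run_blk {C : Circuit n} (hC : C.Monotone) (hs : C.size ≤ s) (x : Fin n → Bool)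
    (v : Option (Fin s) → Bool) : run x (blkP s C) v none = (v none || C.eval x) := by
  obtain ⟨h1, h2⟩ := run_stps hC hs x v C.size le_rfl
  unfold blkP
  rw [run_append]
  show (fin s C none).eval x _ = _
  rw [show fin s C none = .or (.reg none) (nd s C.out) from rfl]
  have h3 : (nd s C.out).eval x (run x ((List.range C.size).map (stp s C)) v) = C.eval x := by
    refine nd_eval (fun j hj => ?_)
    have := C.out_lt j hj
    exact ⟨by omega, h2 j (by omega) this⟩
  show (run x ((List.range C.size).map (stp s C)) v none ||
    (nd s C.out).eval x (run x ((List.range C.size).map (stp s C)) v)) = _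
  rw [h3, h1]

lemma run_all (x : Fin n → Bool) (L : List (Circuit n)) (hL : ∀ C ∈ L, C.Monotone ∧ C.size ≤ s) :
    ∀ v : Option (Fin s) → Bool, run x (L.flatMap (blkP s)) v none = true ↔
      v none = true ∨ ∃ C ∈ L, C.eval x = true := by
  induction L with
  | nil =>
    intro v
    simp [run]
  | cons C L ih =>
    intro v
    have hC := hL C List.mem_cons_self
    rw [List.flatMap_cons, run_append, ih (fun C' h => hL C' (List.mem_cons_of_mem _ h)),
      run_blk hC.1 hC.2, Bool.or_eq_true]
    constructor
    · rintro ((h | h) | ⟨C', h1, h2⟩)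
      · exact Or.inl h
      · exact Or.inr ⟨C, List.mem_cons_self, h⟩
      · exact Or.inr ⟨C', List.mem_cons_of_mem _ h1, h2⟩
    · rintro (h | ⟨C', h1, h2⟩)
      · exact Or.inl (Or.inl h)
      · rcases List.mem_cons.mp h1 with rfl | h1
        · exact Or.inl (Or.inr h2)
        · exact Or.inr ⟨C', h1, h2⟩

lemma len_all (L : List (Circuit n)) (hL : ∀ C ∈ L, C.size ≤ s) :
    (L.flatMap (blkP s)).length ≤ L.length * (s + 1) := by
  induction L with
  | nil => simp
  | cons C L ih =>
    have h1 := hL C List.mem_cons_self
    have h2 := ih (fun C' h => hL C' (List.mem_cons_of_mem _ h))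
    rw [List.flatMap_cons, List.length_append, List.length_cons, Nat.add_mul, one_mul]
    have h3 : (blkP s C).length = C.size + 1 := by simp [blkP]
    omega

/-- **The OR of `M` functions with small circuits is computed in small width.** -/
theorem or_layered {M : ℕ} (hM : 1 ≤ M) (C : Fin M → Circuit n) (hC : ∀ J, (C J).Monotone)
    (hs : ∀ J, (C J).size ≤ s) : ∃ C' : Circuit n, C'.Monotone ∧ C'.Layered (s + 1) ∧
      C'.size ≤ M * (s + 1) * (s + 1) ∧ ∀ x, C'.eval x = true ↔ ∃ J, (C J).eval x = true := by
  classical
  obtain ⟨L, hLdef⟩ : ∃ L, L = List.ofFn C := ⟨_, rfl⟩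
  have hmem : ∀ C' ∈ L, ∃ J, C J = C' := by
    intro C' h
    rw [hLdef, List.mem_ofFn] at h
    exact h
  have hL1 : ∀ C' ∈ L, C'.Monotone ∧ C'.size ≤ s := by
    intro C' h
    obtain ⟨J, rfl⟩ := hmem C' h
    exact ⟨hC J, hs J⟩
  have hcard : Fintype.card (Option (Fin s)) = s + 1 := by simp
  have e := Fintype.equivFinOfCardEq hcard
  have hne : L.flatMap (blkP s) ≠ [] := by
    have h0 : C ⟨0, hM⟩ ∈ L := by
      rw [hLdef, List.mem_ofFn]
      exact ⟨_, rfl⟩
    intro h
    rw [List.flatMap_eq_nil_iff] at h
    have := h _ h0
    simp [blkP] at this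
  refine ⟨progCircuit e (Nat.succ_pos s) (L.flatMap (blkP s)) none hne,
    progCircuit_mono e (Nat.succ_pos s) _ none hne, progCircuit_layered e (Nat.succ_pos s) _ none hne,
    ?_, fun x => ?_⟩
  · show (L.flatMap (blkP s)).length * (s + 1) ≤ _
    have h1 := len_all L (fun C' h => (hL1 C' h).2)
    have h2 : L.length = M := by rw [hLdef, List.length_ofFn]
    rw [h2] at h1
    exact Nat.mul_le_mul_right _ h1
  · rw [progCircuit_eval, run_all x L hL1]
    constructor
    · rintro (h | ⟨C', h1, h2⟩)
      · exact absurd h (by simp)
      · obtain ⟨J, rfl⟩ := hmem C' h1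
        exact ⟨J, h2⟩
    · rintro ⟨J, h⟩
      right
      refine ⟨C J, ?_, h⟩
      rw [hLdef, List.mem_ofFn]
      exact ⟨J, rfl⟩

end Pool.Agent.W953.SC
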