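import Mathlib
import Pool.Agent.W953.SC.Lay
import Pool.Agent.W953.NW.Mux
import Pool.Agent.W953.NW.Eqv
import Pool.Agent.W953.NW.Size
import Pool.Agent.W953.NB.QTfae

/-!
# Narrow circuits and shallow circuits: equivalences
-/

set_option autoImplicit false

namespace Pool.Agent.W953.SC

open Pool.Agent.H540R2 Pool.Agent.H540R2.Circuit Pool.Agent.W953.NW
open Pool.Agent.W953.NB (ls ls_two q_pow q_const q_add S_le_ls p_pow p_add p_two p_tde p_log)

variable {n m S : ℕ}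

/-- size at most `S`, width at most `(log S + 1) ^ a` -/
def Narrow (a S : ℕ) (C : Circuit n) : Prop := C.size ≤ S ∧ C.Layered (ls S ^ a)

/-- depth at most `(log S + 1) ^ c`, size at most `S ^ c` -/
def Shallow (c S : ℕ) (C : Circuit n) : Prop := C.depth ≤ ls S ^ c ∧ C.size ≤ S ^ c

/-- simulation -/
def Uni : Prop := ∀ a, ∃ c, ∀ (S n : ℕ) (C : Circuit n), 2 ≤ S → n ≤ S → Narrow a S C →
  ∃ C' : Circuit n, Shallow c S C' ∧ ∀ x, C'.eval x = C.eval x

/-- windows -/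
def Wins (w : ℕ) : Prop := ∀ a, ∃ c, ∀ (S n : ℕ) (C : Circuit n), 2 ≤ S → n ≤ S →
  Narrow a S C → MonFun C → ∀ k t : ℕ, ∃ C' : Circuit n, C'.nots ≤ t ∧ Shallow c S C' ∧
    ∀ x, k ≤ wt x → wt x < k + 2 ^ t * (w + 1) → C'.eval x = C.eval x

/-- few NOT gates -/
def Fews (K : ℕ) : Prop := ∀ a, ∃ c, ∀ (S n : ℕ) (C : Circuit n), 2 ≤ S → n ≤ S →
  Narrow a S C → MonFun C → ∃ C' : Circuit n, C'.nots ≤ Nat.log 2 n - K ∧ Shallow c S C' ∧
    ∀ x, C'.eval x = C.eval x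

/-- some -/
def Sms (t w : ℕ → ℕ) : Prop := ∀ a, ∃ c, ∀ (S n : ℕ) (C : Circuit n), 2 ≤ S → n ≤ S →
  Narrow a S C → C.Monotone → ∀ k : ℕ, ∃ C' : Circuit n, C'.nots ≤ t n ∧ Shallow c S C' ∧
    ∀ x, k ≤ wt x → wt x ≤ k + w n → C'.eval x = C.eval x

/-! ### numbers -/

lemma size_num (hS : 2 ≤ S) (hn : n ≤ S) {s c P : ℕ} (w : ℕ) (hs : s ≤ S ^ c) (hP : P ≤ S ^ 2) :
    P * (NW.wsz n s w + 2 ^ tde n + 6) ≤ S ^ (2 * w + c + 38) := by
  have h1 : n + 1 ≤ S ^ 2 := by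
    calc n + 1 ≤ S + S := by omega
      _ = 2 * S := by ring
      _ ≤ S * S := Nat.mul_le_mul_right _ hS
      _ = S ^ 2 := by ring
  have h2 : 2 * n + 2 ≤ S ^ 3 := by
    calc 2 * n + 2 = 2 * (n + 1) := by ring
      _ ≤ S * S ^ 2 := Nat.mul_le_mul hS h1
      _ = S ^ 3 := by ring
  have h3 : (2 * n + 2) * 2 ^ tde n ≤ S ^ 33 := by
    calc (2 * n + 2) * 2 ^ tde n ≤ S ^ 3 * S ^ 30 := Nat.mul_le_mul h2 (p_tde hS hn)
      _ = S ^ 33 := by rw [← pow_add]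
  have h4 : (2 * n + 2) * 2 ^ tde n + s ≤ S ^ (c + 33 + 1) :=
    p_add hS (h3.trans (p_pow hS (by omega))) (hs.trans (p_pow hS (by omega)))
  have h5 : NW.wsz n s w ≤ S ^ (2 * w + c + 34) := by
    unfold NW.wsz
    calc (n + 1) ^ w * ((2 * n + 2) * 2 ^ tde n + s) ≤ (S ^ 2) ^ w * S ^ (c + 33 + 1) :=
          Nat.mul_le_mul (Nat.pow_le_pow_left h1 w) h4
      _ = S ^ (2 * w + c + 34) := by rw [← pow_mul, ← pow_add]; congr 1
  have h6 : 2 ^ tde n + 6 ≤ S ^ (2 * w + c + 34) := by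
    have e1 : 6 ≤ S ^ 30 := by
      calc 6 ≤ 2 ^ 30 := by norm_num
        _ ≤ S ^ 30 := p_two hS 30
    exact (p_add hS (p_tde hS hn) e1).trans (p_pow hS (by omega))
  have h7 : NW.wsz n s w + (2 ^ tde n + 6) ≤ S ^ (2 * w + c + 34 + 1) := p_add hS h5 h6
  calc P * (NW.wsz n s w + 2 ^ tde n + 6) = P * (NW.wsz n s w + (2 ^ tde n + 6)) := by ring
    _ ≤ S ^ 2 * S ^ (2 * w + c + 34 + 1) := Nat.mul_le_mul hP h7
    _ = S ^ (2 * w + c + 37) := by rw [← pow_add]; congr 1; ring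
    _ ≤ S ^ (2 * w + c + 38) := p_pow hS (by omega)

lemma depth_num (hS : 2 ≤ S) (hn : n ≤ S) {d c T : ℕ} (W : ℕ) (hd : d ≤ ls S ^ c)
    (hT : T ≤ ls S) : d + W * (tde n + 1) + 3 * T ≤ ls S ^ (c + 31 * W + 5) := by
  have h1 : tde n + 1 ≤ 31 * ls S := by
    have := tde_le hS hn
    unfold ls
    omega
  have h2 : W * (tde n + 1) + 3 * T ≤ ls S ^ (c + 31 * W + 4) := by
    calc W * (tde n + 1) + 3 * T ≤ W * (31 * ls S) + 3 * ls S :=
          Nat.add_le_add (Nat.mul_le_mul_left _ h1) (Nat.mul_le_mul_left _ hT)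
      _ = (31 * W + 3) * ls S ^ 1 := by ring
      _ ≤ ls S ^ (1 + (31 * W + 3)) := q_const hS Nat.lt_two_pow_self.le
      _ ≤ ls S ^ (c + 31 * W + 4) := q_pow hS (by omega)
  have h3 : d ≤ ls S ^ (c + 31 * W + 4) := hd.trans (q_pow hS (by omega))
  have := q_add hS h3 h2
  rw [Nat.add_assoc]
  exact this

lemma log_ls (hn : n ≤ S) : Nat.log 2 n + 1 ≤ ls S := by
  unfold ls
  have := Nat.log_mono_right (b := 2) hn
  omega

theorem wins_of_uni (h : Uni) (w : ℕ) : Wins w := by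
  intro a
  obtain ⟨c, hc⟩ := h a
  refine ⟨31 * (w + 1) + 2 * w + c + 40, fun S n C hS hn hCa hC k t => ?_⟩
  obtain ⟨C₁, ⟨h1, h2⟩, h4⟩ := hc S n C hS hn hCa
  have hmon : ∀ x y : Fin n → Bool, (∀ i, x i ≤ y i) → C₁.eval x ≤ C₁.eval y := by
    intro x y hxy
    rw [h4, h4]
    exact hC x y hxy
  obtain ⟨T, hT⟩ : ∃ T, T = min t (Nat.log 2 n + 1) := ⟨_, rfl⟩
  have hT1 : T ≤ t := by omega
  have hT2 : T ≤ Nat.log 2 n + 1 := by omega
  obtain ⟨C', e1, e2, e3, e4⟩ := nots_windows hmon (LC.of_circuit C₁) k w T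
  have hP : 2 ^ T ≤ S ^ 2 := by
    refine (Nat.pow_le_pow_right (n := 2) (by norm_num) hT2).trans ?_
    rw [pow_succ, pow_two]
    exact Nat.mul_le_mul (p_log hS hn) hS
  have hs2 : 2 * C₁.size ≤ S ^ (c + 1) := by
    rw [pow_succ, Nat.mul_comm]
    exact Nat.mul_le_mul h2 hS
  refine ⟨C', e1.trans hT1, ⟨e2.trans ((depth_num hS hn (w + 1) h1 (hT2.trans (log_ls hn))).trans
    (q_pow hS (by omega))), e3.trans ((size_num hS hn w hs2 hP).trans (p_pow hS (by omega)))⟩,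
    fun x hx1 hx2 => ?_⟩
  rw [← h4]
  apply e4 x hx1
  rcases le_total t (Nat.log 2 n + 1) with h | h
  · have : T = t := by omega
    rw [this, Nat.mul_comm]
    exact hx2
  · have hT3 : T = Nat.log 2 n + 1 := by omega
    have h5 : n < 2 ^ T := by
      rw [hT3]
      exact Nat.lt_pow_succ_log_self (by norm_num) n
    have h6 : 2 ^ T ≤ (w + 1) * 2 ^ T := Nat.le_mul_of_pos_left _ (Nat.succ_pos w)
    have h7 := wt_le x
    omega

theorem fews_of_uni (h : Uni) (K : ℕ) : Fews K := by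
  intro a
  obtain ⟨c, hc⟩ := h a
  obtain ⟨W, hW⟩ : ∃ W, W = 2 ^ (K + 1) := ⟨_, rfl⟩
  refine ⟨31 * W + 2 * W + c + 40, fun S n C hS hn hCa hC => ?_⟩
  obtain ⟨C₁, ⟨h1, h2⟩, h4⟩ := hc S n C hS hn hCa
  have hmon : ∀ x y : Fin n → Bool, (∀ i, x i ≤ y i) → C₁.eval x ≤ C₁.eval y := by
    intro x y hxy
    rw [h4, h4]
    exact hC x y hxy
  obtain ⟨C', e1, e2, e3, e4⟩ := few_nots hmon (LC.of_circuit C₁) K
  rw [← hW] at e2 e3
  have hP : 2 ^ (Nat.log 2 n) ≤ S ^ 2 := (p_log hS hn).trans (Nat.le_self_pow (by norm_num) S)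
  have hs2 : 2 * C₁.size ≤ S ^ (c + 1) := by
    rw [pow_succ, Nat.mul_comm]
    exact Nat.mul_le_mul h2 hS
  exact ⟨C', e1, ⟨e2.trans ((depth_num hS hn W h1 (by have := log_ls (S := S) hn; omega)).trans
    (q_pow hS (by omega))), e3.trans ((size_num hS hn W hs2 hP).trans (p_pow hS (by omega)))⟩,
    fun x => by rw [e4, h4]⟩

theorem sms_of_wins (h : Wins 0) : Sms (fun _ => 0) (fun _ => 0) := by
  intro a
  obtain ⟨c, hc⟩ := h a
  refine ⟨c, fun S n C hS hn hCa hC k => ?_⟩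
  obtain ⟨C', h1, h2, h3⟩ := hc S n C hS hn hCa (monFun_of_monotone hC) k 0
  refine ⟨C', h1, h2, fun x hx1 hx2 => h3 x hx1 ?_⟩
  have h5 : wt x ≤ k + 0 := hx2
  rw [pow_zero, one_mul]
  omega

theorem sms_of_fews {K : ℕ} (h : Fews K) : Sms (fun n => Nat.log 2 n) (fun n => n) := by
  intro a
  obtain ⟨c, hc⟩ := h a
  refine ⟨c, fun S n C hS hn hCa hC k => ?_⟩
  obtain ⟨C', h1, h2, h3⟩ := hc S n C hS hn hCa (monFun_of_monotone hC)
  exact ⟨C', h1.trans (Nat.sub_le _ _), h2, fun x _ _ => h3 x⟩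

lemma layered_mono {C : Circuit n} {w w' : ℕ} (h : C.Layered w) (hw : w ≤ w') : C.Layered w' := by
  obtain ⟨d, lay, h1, h2, h3, h4⟩ := h
  exact ⟨d, lay, h1, h2, h3, fun l => (h4 l).trans hw⟩

lemma ls_double (hS : 2 ≤ S) : ls (2 * S) = ls S + 1 := by
  unfold ls
  rw [Nat.mul_comm, Nat.log_mul_base (by norm_num) (by omega)]

theorem uni_of_sms {t w : ℕ → ℕ} (h : Sms t w) : Uni := by
  intro a
  obtain ⟨c, hc⟩ := h (a + 1)
  refine ⟨2 * c + 2, fun S n C hS hn hCa => ?_⟩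
  have h2S : 2 ≤ 2 * S := by omega
  have hls := ls_two hS
  have hw : 2 * ls S ^ a ≤ ls (2 * S) ^ (a + 1) := by
    rw [ls_double hS, pow_succ, Nat.mul_comm]
    exact Nat.mul_le_mul (Nat.pow_le_pow_left (Nat.le_succ _) a) (by omega)
  obtain ⟨C', h1, ⟨h2, h3⟩, h4⟩ := hc (2 * S) (n + n) (dual C) h2S (by omega)
    ⟨Nat.mul_le_mul_left 2 hCa.1, layered_mono (dual_layered hCa.2) hw⟩ (dual_mono C) n
  obtain ⟨C'', g1, g2, g3⟩ := subst_lits C' (id : Fin n → Fin n)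
  refine ⟨C'', ⟨?_, ?_⟩, fun x => ?_⟩
  · have e1 : ls (2 * S) ^ c ≤ ls S ^ (2 * c) := by
      rw [ls_double hS, Nat.mul_comm, pow_mul']
      apply Nat.pow_le_pow_left
      nlinarith
    have e2 : 1 ≤ ls S ^ (2 * c) := Nat.one_le_pow _ _ (by omega)
    exact g2.trans ((Nat.add_le_add_right (h2.trans e1) 1).trans ((q_add hS le_rfl e2).trans
      (q_pow hS (by omega))))
  · have e1 : (2 * S) ^ c ≤ S ^ (2 * c) := by
      rw [pow_mul]
      apply Nat.pow_le_pow_left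
      rw [pow_two]
      exact Nat.mul_le_mul_right _ hS
    have e2 : (2 * S) ^ c ≤ S ^ (2 * c + 1) := e1.trans (p_pow hS (by omega))
    have e3 : n ≤ S ^ (2 * c + 1) := hn.trans (Nat.le_self_pow (by omega) S)
    exact g1.trans (p_add hS (h3.trans e2) e3)
  · rw [g3]
    have hw1 := wt_lits x
    have : (fun j => x (id j)) = x := rfl
    rw [this, h4 _ hw1.ge (by omega), dual_eval]

/-! ### families -/

/-- non-uniform SC -/
def InSC (f : (n : ℕ) → (Fin n → Bool) → Bool) : Prop := ∃ c : ℕ, ∀ n, ∃ C : Circuit n,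
  (∀ x, C.eval x = f n x) ∧ C.size ≤ n ^ c + c ∧ C.Layered (Nat.log 2 n ^ c + c)

/-- non-uniform NC -/
def InNC (f : (n : ℕ) → (Fin n → Bool) → Bool) : Prop := ∃ c : ℕ, ∀ n, ∃ C : Circuit n,
  (∀ x, C.eval x = f n x) ∧ C.size ≤ n ^ c + c ∧ C.depth ≤ Nat.log 2 n ^ c + c

lemma self_le_two_pow (a : ℕ) : a ≤ 2 ^ a := Nat.lt_two_pow_self.le

theorem fam_of_uni (h : Uni) (f : (n : ℕ) → (Fin n → Bool) → Bool) (hf : InSC f) : InNC f := by
  obtain ⟨b, hb⟩ := hf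
  obtain ⟨c, hc⟩ := h (b + 1)
  obtain ⟨A, hA⟩ : ∃ A, A = (2 * b + 12) ^ c := ⟨_, rfl⟩
  refine ⟨(b + 3) * c + c + A, fun n => ?_⟩
  obtain ⟨C, c1, c2, c3⟩ := hb n
  obtain ⟨S, hS⟩ : ∃ S, S = n ^ b + b + n + 2 := ⟨_, rfl⟩
  have hS2 : 2 ≤ S := by omega
  have hnS : n ≤ S := by omega
  have hls := ls_two hS2
  have hw : Nat.log 2 n ^ b + b ≤ ls S ^ (b + 1) := by
    refine q_add hS2 (Nat.pow_le_pow_left ?_ b)
      ((self_le_two_pow b).trans (Nat.pow_le_pow_left hls b))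
    have := log_ls (S := S) hnS
    omega
  obtain ⟨C', ⟨d1, d2⟩, d3⟩ := hc S n C hS2 hnS ⟨by omega, layered_mono c3 hw⟩
  refine ⟨C', fun x => by rw [d3, c1], d2.trans ?_, d1.trans ?_⟩
  · rcases Nat.lt_or_ge n 2 with hn | hn
    · have h1 : n ^ b ≤ 1 := (Nat.pow_le_pow_left (by omega : n ≤ 1) b).trans (by rw [one_pow])
      have h2 : S ≤ 2 * b + 12 := by omega
      calc S ^ c ≤ A := by rw [hA]; exact Nat.pow_le_pow_left h2 c
        _ ≤ n ^ ((b + 3) * c + c + A) + ((b + 3) * c + c + A) := by omega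
    · have h1 : S ≤ n ^ (b + 3) := by
        have e0 : 1 ≤ n ^ b := Nat.one_le_pow _ _ (by omega)
        have e1 : b ≤ n ^ b := (self_le_two_pow b).trans (Nat.pow_le_pow_left hn b)
        have e2 : n ≤ n ^ b * n := Nat.le_mul_of_pos_left _ e0
        have e3 : 2 ≤ n ^ b * n := hn.trans e2
        have e4 : n ^ (b + 3) = n ^ b * n * (n * n) := by ring
        have e5 : 4 ≤ n * n := Nat.mul_le_mul hn hn
        have e6 : n ^ b ≤ n ^ b * n := Nat.le_mul_of_pos_right _ (by omega)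
        rw [e4, hS]
        calc n ^ b + b + n + 2 ≤ n ^ b * n * 4 := by omega
          _ ≤ n ^ b * n * (n * n) := Nat.mul_le_mul_left _ e5
      calc S ^ c ≤ (n ^ (b + 3)) ^ c := Nat.pow_le_pow_left h1 c
        _ = n ^ ((b + 3) * c) := by rw [← pow_mul]
        _ ≤ n ^ ((b + 3) * c + c + A) := Nat.pow_le_pow_right (by omega) (by omega)
        _ ≤ _ := Nat.le_add_right _ _
  · rcases Nat.lt_or_ge n 2 with hn | hn
    · have h1 : n ^ b ≤ 1 := (Nat.pow_le_pow_left (by omega : n ≤ 1) b).trans (by rw [one_pow])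
      have h2 : S ≤ 2 * b + 6 := by omega
      have h3 : ls S ≤ 2 * b + 12 := by
        have : Nat.log 2 S < S := Nat.log_lt_self 2 (by omega)
        unfold ls
        omega
      calc ls S ^ c ≤ A := by rw [hA]; exact Nat.pow_le_pow_left h3 c
        _ ≤ Nat.log 2 n ^ ((b + 3) * c + c + A) + ((b + 3) * c + c + A) := by omega
    · have hl1 : 1 ≤ Nat.log 2 n := Nat.log_pos (by norm_num) hn
      have h1 : S ≤ n ^ (b + 3) := by
        have e0 : 1 ≤ n ^ b := Nat.one_le_pow _ _ (by omega)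
        have e1 : b ≤ n ^ b := (self_le_two_pow b).trans (Nat.pow_le_pow_left hn b)
        have e2 : n ≤ n ^ b * n := Nat.le_mul_of_pos_left _ e0
        have e3 : 2 ≤ n ^ b * n := hn.trans e2
        have e4 : n ^ (b + 3) = n ^ b * n * (n * n) := by ring
        have e5 : 4 ≤ n * n := Nat.mul_le_mul hn hn
        have e6 : n ^ b ≤ n ^ b * n := Nat.le_mul_of_pos_right _ (by omega)
        rw [e4, hS]
        calc n ^ b + b + n + 2 ≤ n ^ b * n * 4 := by omega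
          _ ≤ n ^ b * n * (n * n) := Nat.mul_le_mul_left _ e5
      have h2 : ls S ≤ (2 * b + 12) * Nat.log 2 n := by
        have e1 : n ^ (b + 3) < 2 ^ ((Nat.log 2 n + 1) * (b + 3)) := by
          rw [pow_mul]
          exact Nat.pow_lt_pow_left (Nat.lt_pow_succ_log_self (by norm_num) n) (by omega)
        have e2 : Nat.log 2 S < (Nat.log 2 n + 1) * (b + 3) :=
          Nat.log_lt_of_lt_pow (by omega) (lt_of_le_of_lt h1 e1)
        unfold ls
        have e3 : (Nat.log 2 n + 1) * (b + 3) ≤ (2 * b + 12) * Nat.log 2 n := by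
          have : Nat.log 2 n + 1 ≤ 2 * Nat.log 2 n := by omega
          calc (Nat.log 2 n + 1) * (b + 3) ≤ (2 * Nat.log 2 n) * (b + 3) :=
                Nat.mul_le_mul_right _ this
            _ = (2 * b + 6) * Nat.log 2 n := by ring
            _ ≤ (2 * b + 12) * Nat.log 2 n := Nat.mul_le_mul_right _ (by omega)
        omega
      have h3 : ls S ^ c ≤ A * Nat.log 2 n ^ c := by
        rw [hA, ← mul_pow]
        exact Nat.pow_le_pow_left h2 c
      refine h3.trans ?_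
      rcases Nat.lt_or_ge (Nat.log 2 n) 2 with h5 | h5
      · have h6 : Nat.log 2 n = 1 := by omega
        rw [h6]
        simp only [one_pow, mul_one]
        omega
      · calc A * Nat.log 2 n ^ c ≤ Nat.log 2 n ^ A * Nat.log 2 n ^ c :=
              Nat.mul_le_mul_right _ ((self_le_two_pow A).trans (Nat.pow_le_pow_left h5 A))
          _ = Nat.log 2 n ^ (A + c) := by rw [← pow_add]
          _ ≤ Nat.log 2 n ^ ((b + 3) * c + c + A) := Nat.pow_le_pow_right (by omega) (by omega)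
          _ ≤ _ := Nat.le_add_right _ _

end Pool.Agent.W953.SC
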