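import Mathlib
import Pool.Agent.W953.SC.Eqv
import Pool.Agent.W953.PT.Slices

/-!
# From families to single circuits
-/

set_option autoImplicit false

namespace Pool.Agent.W953.SC

open Pool.Agent.H540R2 Pool.Agent.H540R2.Circuit Pool.Agent.W953.NW
open Pool.Agent.W953.NB (ls ls_two q_pow q_const q_add S_le_ls p_pow p_add p_two p_tde p_log)

variable {n m S : ℕ}

/-- renaming keeps the layers -/
lemma ren_layered (e : Fin n → Fin m) {C : Circuit n} {w : ℕ} (h : C.Layered w) :
    (ren e C).Layered w := by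
  obtain ⟨d, lay, h1, h2, ⟨o, ho, ho2, ho3⟩, h4⟩ := h
  refine ⟨d, lay, h1, fun i hi j hj => ?_, ⟨o, ho, ?_, ho3⟩, h4⟩
  · refine h2 i hi j ?_
    have hg : (ren e C).gate i = renG e (C.gate i) := rfl
    rw [hg, renG_wires] at hj
    exact hj
  · show renN e C.out = _
    rw [ho2]
    rfl

/-- the constant -/
lemma false_layered (m : ℕ) : ∃ C : Circuit m, C.Layered 1 ∧ C.size ≤ 1 ∧ ∀ x, C.eval x = false := by
  obtain ⟨C, -, h1, h2, h3⟩ := or_layered (n := m) (s := 0) (M := 1) le_rfl
    (fun _ => Circuit.empty m) (fun _ i hi => absurd hi (Nat.not_lt_zero i)) (fun _ => le_rfl)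
  refine ⟨C, h1, by simpa using h2, fun x => ?_⟩
  rw [← Bool.not_eq_true, h3]
  rintro ⟨_, h⟩
  exact absurd h (by simp [Circuit.empty, Circuit.eval, Node.eval])

/-- fixing variables -/
lemma subs_size {N : ℕ} (C' : Circuit N) (g : Fin N → BF m)
    (hg : ∀ i, (∃ j, g i = fun y => y j) ∨ ∃ b, g i = fun _ => b) :
    ∃ C'' : Circuit m, C''.size ≤ C'.size ∧ C''.depth ≤ C'.depth ∧
      ∀ y, C''.eval y = C'.eval (fun i => g i y) := by
  obtain ⟨P', p1, p2⟩ := Av.app (Circuit.empty m) C' g 0 (fun i => by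
    rcases hg i with ⟨j, hj⟩ | ⟨b, hb⟩
    · rw [hj]
      exact Av.var _ j 0
    · rw [hb]
      exact Av.const _ b 0)
  obtain ⟨C, c1, c2, c3, c4⟩ := p2.circuit
  refine ⟨C, ?_, by omega, c4⟩
  have := p1.2.1
  have h0 : (Circuit.empty m).size = 0 := rfl
  omega

theorem uni_of_fam (h : ∀ f, InSC f → InNC f) : Uni := by
  classical
  by_contra hcon
  unfold Uni at hcon
  push Not at hcon
  obtain ⟨a, ha⟩ := hcon
  choose Sf nf Cf h1 h2 h3 h4 using ha
  have hbig : ∀ c, 1 ≤ c → c < Sf c := by
    intro c hc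
    by_contra hle
    push Not at hle
    have hsh : Shallow c (Sf c) (Cf c) := by
      constructor
      · have hls := ls_two (h1 c)
        calc (Cf c).depth ≤ (Cf c).size := depth_le_size _
          _ ≤ Sf c := (h3 c).1
          _ ≤ c := hle
          _ ≤ 2 ^ c := self_le_two_pow c
          _ ≤ ls (Sf c) ^ c := Nat.pow_le_pow_left hls c
      · exact (h3 c).1.trans (Nat.le_self_pow (by omega) _)
    obtain ⟨x, hx⟩ := h4 c (Cf c) hsh
    exact hx rfl
  -- a subsequence
  let idx : ℕ → ℕ := fun i => Nat.rec 1 (fun _ r => Sf r) i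
  have idx0 : idx 0 = 1 := rfl
  have idxs : ∀ i, idx (i + 1) = Sf (idx i) := fun i => rfl
  have hpos : ∀ i, i + 1 ≤ idx i := by
    intro i
    induction i with
    | zero => exact le_of_eq idx0.symm
    | succ i ih =>
      rw [idxs]
      have := hbig (idx i) (by omega)
      omega
  have hstrict : StrictMono (fun i => idx (i + 1)) := by
    apply strictMono_nat_of_lt_succ
    intro i
    show idx (i + 1) < idx (i + 1 + 1)
    rw [idxs (i + 1)]
    exact hbig _ (by have := hpos (i + 1); omega)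
  let f : (M : ℕ) → (Fin M → Bool) → Bool := fun M x =>
    if hM : ∃ i, idx (i + 1) = M then (Cf (idx hM.choose)).eval (fun j => x ⟨j.val, by
      have h5 := hM.choose_spec
      have h6 := h2 (idx hM.choose)
      rw [idxs] at h5
      omega⟩) else false
  have hf : InSC f := by
    have q2a : 1 ≤ 2 ^ a := Nat.one_le_two_pow
    refine ⟨2 ^ a + 2 * a + 1, fun M => ?_⟩
    by_cases hM : ∃ i, idx (i + 1) = M
    · have h5 := hM.choose_spec
      rw [idxs] at h5
      have h6 : nf (idx hM.choose) ≤ M := by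
        have := h2 (idx hM.choose)
        omega
      refine ⟨ren (Fin.castLE h6) (Cf (idx hM.choose)), fun x => ?_, ?_, ?_⟩
      · simp only [f]
        rw [dif_pos hM]
        apply ren_eval
        intro i _
        rfl
      · have h7 : (Cf (idx hM.choose)).size ≤ M := by
          have := (h3 (idx hM.choose)).1
          omega
        have h8 : M ≤ M ^ (2 ^ a + 2 * a + 1) := Nat.le_self_pow (by omega) M
        show (Cf (idx hM.choose)).size ≤ _
        omega
      · have h7 := (h3 (idx hM.choose)).2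
        rw [h5] at h7
        refine ren_layered _ (layered_mono h7 ?_)
        have hM2 : 2 ≤ M := by
          have := h1 (idx hM.choose)
          omega
        have hl1 : 1 ≤ Nat.log 2 M := Nat.log_pos (by norm_num) hM2
        have e1 : ls M ^ a ≤ 2 ^ a * Nat.log 2 M ^ a := by
          rw [← mul_pow]
          apply Nat.pow_le_pow_left
          unfold ls
          omega
        refine e1.trans ?_
        rcases Nat.lt_or_ge (Nat.log 2 M) 2 with h8 | h8
        · have h9 : Nat.log 2 M = 1 := by omega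
          rw [h9]
          simp only [one_pow, mul_one]
          omega
        · calc 2 ^ a * Nat.log 2 M ^ a ≤ Nat.log 2 M ^ a * Nat.log 2 M ^ a :=
                Nat.mul_le_mul_right _ (Nat.pow_le_pow_left h8 a)
            _ = Nat.log 2 M ^ (2 * a) := by rw [← pow_add]; congr 1; ring
            _ ≤ Nat.log 2 M ^ (2 ^ a + 2 * a + 1) := Nat.pow_le_pow_right hl1 (by omega)
            _ ≤ _ := Nat.le_add_right _ _
    · obtain ⟨C, c1, c2, c3⟩ := false_layered M
      refine ⟨C, fun x => ?_, by omega, layered_mono c1 (by omega)⟩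
      simp only [f]
      rw [dif_neg hM, c3]
  obtain ⟨c, hc⟩ := h f hf
  obtain ⟨ic, hic⟩ : ∃ ic, ic = idx (c + 1) := ⟨_, rfl⟩
  have hic1 : c + 2 ≤ ic := by
    rw [hic]
    exact hpos (c + 1)
  obtain ⟨M, hM⟩ : ∃ M, M = Sf ic := ⟨_, rfl⟩
  have hidM : idx (c + 1 + 1) = M := by
    have e1 := idxs (c + 1)
    rw [← hic, ← hM] at e1
    exact e1
  have hex : ∃ i, idx (i + 1) = M := ⟨c + 1, hidM⟩
  have hch : hex.choose = c + 1 := by
    apply hstrict.injective
    show idx (hex.choose + 1) = idx (c + 1 + 1)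
    exact hex.choose_spec.trans hidM.symm
  have hfM : ∀ x : Fin M → Bool, ∀ hle : nf ic ≤ M,
      f M x = (Cf ic).eval (fun j => x (Fin.castLE hle j)) := by
    intro x hle
    simp only [f]
    rw [dif_pos hex]
    have key : ∀ i, ∀ hi : nf (idx i) ≤ M, i = c + 1 →
        (Cf (idx i)).eval (fun j => x ⟨j.val, by have := j.isLt; omega⟩) =
        (Cf ic).eval (fun j => x (Fin.castLE hle j)) := by
      rintro i hi rfl
      subst hic
      rfl
    exact key hex.choose (by rw [hch, ← hic]; exact hle) hch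
  have hle : nf ic ≤ M := by rw [hM]; exact h2 ic
  have hM2 : 2 ≤ M := by rw [hM]; exact h1 ic
  obtain ⟨C', g1, g2, g3⟩ := hc M
  obtain ⟨C'', k1, k2, k3⟩ := subs_size (m := nf ic) C'
    (fun i y => if hi : i.val < nf ic then y ⟨i.val, hi⟩ else false) (fun i => by
      by_cases hi : i.val < nf ic
      · left
        exact ⟨⟨i.val, hi⟩, funext fun y => by rw [dif_pos hi]⟩
      · right
        exact ⟨false, funext fun y => by rw [dif_neg hi]⟩)
  have hsh : Shallow ic (Sf ic) C'' := by
    constructor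
    · have hls := ls_two hM2
      rw [← hM]
      have e1 : Nat.log 2 M ^ c ≤ ls M ^ c := Nat.pow_le_pow_left (by unfold ls; omega) c
      have e2 : c ≤ ls M ^ c := (self_le_two_pow c).trans (Nat.pow_le_pow_left hls c)
      exact k2.trans (g3.trans ((q_add hM2 e1 e2).trans (q_pow hM2 (by omega))))
    · rw [← hM]
      have e2 : c ≤ M ^ c := (self_le_two_pow c).trans (Nat.pow_le_pow_left hM2 c)
      exact k1.trans (g2.trans ((p_add hM2 le_rfl e2).trans (p_pow hM2 (by omega))))
  obtain ⟨x, hx⟩ := h4 ic C'' hsh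
  apply hx
  have e5 := hfM (fun i => if hi : i.val < nf ic then x ⟨i.val, hi⟩ else false) hle
  refine (k3 x).trans ((g1 _).trans (e5.trans ?_))
  congr 1
  funext j
  have : (Fin.castLE hle j).val < nf ic := j.isLt
  rw [dif_pos this]
  rfl

/-- **The equivalences.** -/
theorem sc_tfae : List.TFAE [∀ f, InSC f → InNC f, ∀ w, Wins w, ∀ K, Fews K,
    ∃ t w : ℕ → ℕ, Sms t w] := by
  tfae_have 1 → 2 := fun h w => wins_of_uni (uni_of_fam h) w
  tfae_have 1 → 3 := fun h K => fews_of_uni (uni_of_fam h) K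
  tfae_have 2 → 4 := fun h => ⟨_, _, sms_of_wins (h 0)⟩
  tfae_have 3 → 4 := fun h => ⟨_, _, sms_of_fews (h 0)⟩
  tfae_have 4 → 1 := fun ⟨_, _, h⟩ f hf => fam_of_uni (uni_of_sms h) f hf
  tfae_finish

end Pool.Agent.W953.SC
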