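import Mathlib
import Pool.Agent.W953.PT.Slices
import Pool.Agent.W953.SP.Hard
import Pool.Agent.W953.SC.Lay

/-!
# Hard functions with circuits of small width
-/

set_option autoImplicit false

namespace Pool.Agent.W953.SC

open Finset Pool.Agent.H540R2 Pool.Agent.H540R2.Circuit Pool.Agent.W953.NW Pool.Agent.W953.PT
open Pool.Agent.H520R2 Pool.Agent.H520R2.NM Pool.Agent.H560R2

/-- shallow circuits for `f` have many negations, general form -/
def LowFun (D N M : ℕ) (f : (Fin N → Bool) → Bool) : Prop :=
      ∀ (s : ℕ) (T : Finset (Fin s)) (w : Fin s → ℕ) (a : ∀ i, Fin (w i) → Fin N ⊕ Fin s)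
        (dep : Fin s → ℕ) (_ : ∀ i, 1 ≤ dep i ∧ dep i ≤ D)
        (_ : ∀ i j k, a i j = Sum.inr k → k < i ∧ dep k < dep i)
        (op : ∀ i, (Fin (w i) → Bool) → Bool) (_ : ∀ i ∉ T, w i ≤ 2 ∧ Monotone (op i))
        (val : (Fin N → Bool) → Fin s → Bool) (inp : (Fin N → Bool) → ∀ i, Fin (w i) → Bool)
        (_ : ∀ x i j, inp x i j = Sum.elim x (val x) (a i j))
        (_ : ∀ x i, val x i = op i (inp x i)) (o : Fin s) (_ : ∀ x, val x o = f x),
        M < ∏ i ∈ T, (w i + 1)

/-- The lower bound for circuits. -/
theorem low_of {D N M : ℕ} (hNpos : 0 < N) {f : (Fin N → Bool) → Bool} (hlow : LowFun D N M f)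
    (C' : Circuit N) (hEq : ∀ x, C'.eval x = f x) (hdep : C'.depth + 1 ≤ D) :
    M < 2 ^ C'.nots := by
  classical
  have i0 : Fin N := ⟨0, hNpos⟩
  set s := C'.size + 1 with hs
  have hs0 : 0 < s := Nat.succ_pos _
  -- shallow gates
  set sh : ℕ → Prop := fun i => i < C'.size ∧ C'.gateDepth i + 1 ≤ D with hsh
  set T : Finset (Fin s) := Finset.univ.filter
    (fun i => sh i.val ∧ (C'.gate i.val).isNot = true) with hT
  set w : Fin s → ℕ := fun i => if i ∈ T then 1 else 2 with hw
  set A : Fin s → ℕ → Fin N ⊕ Fin s := fun i j =>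
    if sh i.val then (if j = 0 then wireOf s hs0 i0 (lft (C'.gate i.val)) else
      wireOf s hs0 i0 (rgt (C'.gate i.val)))
    else if i.val = C'.size then wireOf s hs0 i0 C'.out else Sum.inl i0 with hA
  set G : Fin s → Bool → Bool → Bool := fun i b₀ b₁ =>
    if sh i.val then opOf (C'.gate i.val) b₀ b₁
    else if i.val = C'.size then bitOf C'.out b₀ else false with hG
  set val : (Fin N → Bool) → Fin s → Bool := fun x i =>
    if sh i.val then C'.val x i.val else if i.val = C'.size then C'.eval x else false with hval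
  set dep : Fin s → ℕ := fun i =>
    if sh i.val then C'.gateDepth i.val else if i.val = C'.size then D else 1 with hdp
  have hD1 : 1 ≤ D := by omega
  have hnot : ∀ j : ℕ, j = C'.size → ¬ sh j := fun j hj h => by
    have := h.1
    omega
  have hout : ∀ j, C'.out.wires j ≠ 0 → sh j := by
    intro j hj
    refine ⟨C'.out_lt j hj, ?_⟩
    have : C'.depth = C'.gateDepth j := node_depth_of_wire hj
    omega
  have hchild : ∀ i, sh i → ∀ j, (C'.gate i).wires j ≠ 0 → j < i := fun i hi j hj =>
    C'.gate_lt i hi.1 j hj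
  have hlsh : ∀ i, sh i → ∀ j, (lft (C'.gate i)).wires j ≠ 0 →
      sh j ∧ C'.gateDepth j < C'.gateDepth i := by
    intro i hi j hj
    have h1 := hchild i hi j (lft_wires hj)
    have h2 := lft_depth (C'.gate i) C'.gateDepth
    rw [node_depth_of_wire hj, ← C'.gateDepth_gate hi.1] at h2
    exact ⟨⟨h1.trans hi.1, by have := hi.2; omega⟩, by omega⟩
  have hrsh : ∀ i, sh i → ∀ j, (rgt (C'.gate i)).wires j ≠ 0 →
      sh j ∧ C'.gateDepth j < C'.gateDepth i := by
    intro i hi j hj
    have h1 := hchild i hi j (rgt_wires hj)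
    have h2 := rgt_depth (C'.gate i) C'.gateDepth
    rw [node_depth_of_wire hj, ← C'.gateDepth_gate hi.1] at h2
    exact ⟨⟨h1.trans hi.1, by have := hi.2; omega⟩, by omega⟩
  have hdepT : ∀ i, 1 ≤ dep i ∧ dep i ≤ D := by
    intro i
    simp only [hdp]
    split_ifs with h1 h2
    · exact ⟨gateDepth_pos C' _ h1.1, by have := h1.2; omega⟩
    · exact ⟨hD1, le_rfl⟩
    · exact ⟨le_rfl, hD1⟩
  have hvalsh : ∀ x, ∀ j (hj : j < s), sh j → val x ⟨j, hj⟩ = C'.val x j := by
    intro x j hj h
    simp only [hval]
    rw [if_pos h]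
  have hmain := hlow s T w (fun i j => A i j.val) dep hdepT
    (by
      intro i j k h
      simp only [hA] at h
      by_cases h1 : sh i.val
      · rw [if_pos h1] at h
        have hlt : ∀ a : Node N, wireOf s hs0 i0 a = Sum.inr k →
            (∀ j, a.wires j ≠ 0 → sh j ∧ C'.gateDepth j < C'.gateDepth i.val ∧ j < i.val) →
            k < i ∧ dep k < dep i := by
          intro a ha haw
          have h2 := wireOf_inr ha (fun j hj => by
            have := (haw j hj).1.1
            omega)
          obtain ⟨h3, h4, h5⟩ := haw k.val h2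
          refine ⟨h5, ?_⟩
          simp only [hdp]
          rw [if_pos h3, if_pos h1]
          exact h4
        split_ifs at h
        · exact hlt _ h (fun j hj => ⟨(hlsh i.val h1 j hj).1, (hlsh i.val h1 j hj).2,
            hchild i.val h1 j (lft_wires hj)⟩)
        · exact hlt _ h (fun j hj => ⟨(hrsh i.val h1 j hj).1, (hrsh i.val h1 j hj).2,
            hchild i.val h1 j (rgt_wires hj)⟩)
      · rw [if_neg h1] at h
        by_cases h2 : i.val = C'.size
        · rw [if_pos h2] at h
          have h3 := wireOf_inr h (fun j hj => by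
            have := (hout j hj).1
            omega)
          have h4 := hout k.val h3
          refine ⟨?_, ?_⟩
          · rw [Fin.lt_def, h2]
            exact h4.1
          · simp only [hdp]
            rw [if_pos h4, if_neg h1, if_pos h2]
            have := h4.2
            omega
        · rw [if_neg h2] at h
          exact absurd h (by simp))
    (fun i bb => G i (if h : 0 < w i then bb ⟨0, h⟩ else false)
      (if h : 1 < w i then bb ⟨1, h⟩ else false))
    (by
      intro i hi
      have hwi : w i = 2 := by simp only [hw]; rw [if_neg hi]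
      refine ⟨hwi.le, ?_⟩
      intro u u' huu
      have e0 : (if h : 0 < w i then u ⟨0, h⟩ else false) ≤
          (if h : 0 < w i then u' ⟨0, h⟩ else false) := by
        split_ifs with h
        · exact huu _
        · exact le_rfl
      have e1 : (if h : 1 < w i then u ⟨1, h⟩ else false) ≤
          (if h : 1 < w i then u' ⟨1, h⟩ else false) := by
        split_ifs with h
        · exact huu _
        · exact le_rfl
      show G i _ _ ≤ G i _ _
      simp only [hG]
      by_cases h1 : sh i.val
      · rw [if_pos h1, if_pos h1]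
        have h2 : (C'.gate i.val).isNot = false := by
          by_contra hne
          apply hi
          rw [hT, Finset.mem_filter]
          exact ⟨Finset.mem_univ _, h1, by simpa using hne⟩
        exact opOf_mono h2 e0 e1
      · rw [if_neg h1, if_neg h1]
        by_cases h2 : i.val = C'.size
        · rw [if_pos h2, if_pos h2]
          exact bitOf_mono _ e0
        · rw [if_neg h2, if_neg h2])
    val (fun x i j => Sum.elim x (val x) (A i j.val)) (fun x i j => rfl)
    (by
      intro x i
      have hw0 : 0 < w i := by simp only [hw]; split_ifs <;> norm_num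
      show val x i = G i _ _
      rw [dif_pos hw0]
      by_cases h1 : sh i.val
      · have e0 : val x i = C'.val x i.val := hvalsh x i.val i.isLt h1
        have eA0 : A i 0 = wireOf s hs0 i0 (lft (C'.gate i.val)) := by
          simp only [hA]
          rw [if_pos h1]
          simp
        have eA1 : A i 1 = wireOf s hs0 i0 (rgt (C'.gate i.val)) := by
          simp only [hA]
          rw [if_pos h1]
          simp
        rw [e0, C'.val_gate h1.1]
        simp only [hG]
        rw [if_pos h1]
        have hL : bitOf (lft (C'.gate i.val)) (Sum.elim x (val x) (A i 0)) =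
            (lft (C'.gate i.val)).eval x (C'.val x) := by
          rw [eA0]
          apply bitOf_wire
          intro j hj
          have h3 := (hlsh i.val h1 j hj).1
          exact ⟨by have := h3.1; omega, hvalsh x j _ h3⟩
        have hR : bitOf (rgt (C'.gate i.val)) (Sum.elim x (val x) (A i 1)) =
            (rgt (C'.gate i.val)).eval x (C'.val x) := by
          rw [eA1]
          apply bitOf_wire
          intro j hj
          have h3 := (hrsh i.val h1 j hj).1
          exact ⟨by have := h3.1; omega, hvalsh x j _ h3⟩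
        by_cases hiT : i ∈ T
        · -- a NOT gate
          have hn : (C'.gate i.val).isNot = true := by
            rw [hT, Finset.mem_filter] at hiT
            exact hiT.2.2
          have hw1 : ¬ 1 < w i := by simp only [hw]; rw [if_pos hiT]; norm_num
          rw [dif_neg hw1]
          cases hgg : C'.gate i.val with
          | and a b => rw [hgg] at hn; simp [Gate.isNot] at hn
          | or a b => rw [hgg] at hn; simp [Gate.isNot] at hn
          | not a =>
            rw [hgg] at hL
            simp only [lft] at hL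
            simp only [opOf, Gate.eval]
            rw [hL]
        · have hw1 : 1 < w i := by simp only [hw]; rw [if_neg hiT]; norm_num
          rw [dif_pos hw1]
          exact (opOf_eval _ x (C'.val x) _ _ hL hR).symm
      · simp only [hval, hG]
        rw [if_neg h1, if_neg h1]
        by_cases h2 : i.val = C'.size
        · rw [if_pos h2, if_pos h2]
          have eA0 : A i 0 = wireOf s hs0 i0 C'.out := by
            simp only [hA]
            rw [if_neg h1, if_pos h2]
          have := bitOf_wire s hs0 i0 x (C'.val x) (val x) C'.out (fun j hj =>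
            ⟨by have := (hout j hj).1; omega, hvalsh x j _ (hout j hj)⟩)
          rw [← eA0] at this
          exact this.symm
        · rw [if_neg h2, if_neg h2])
    ⟨C'.size, Nat.lt_succ_self _⟩
    (by
      intro x
      simp only [hval]
      rw [if_neg (hnot _ rfl), if_pos trivial, hEq x])
  refine lt_of_lt_of_le hmain ?_
  have hprod : ∏ i ∈ T, (w i + 1) = 2 ^ T.card := by
    rw [← Finset.prod_const]
    refine Finset.prod_congr rfl (fun i hi => ?_)
    simp only [hw]
    rw [if_pos hi]
  rw [hprod]
  apply Nat.pow_le_pow_right (by norm_num)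
  unfold Circuit.nots
  refine Finset.card_le_card_of_injOn (fun i => i.val) (fun i hi => ?_)
    (fun i _ j _ h => Fin.ext h)
  have hi' := (Finset.mem_filter.mp (Finset.mem_coe.mp hi)).2
  exact Finset.mem_coe.mpr (Finset.mem_filter.mpr ⟨Finset.mem_range.mpr hi'.1.1, hi'.2⟩)

/-- The hard functions. -/
theorem hardFunL (D N : ℕ) (hN : vno D ≤ N) (hD : N < 2 ^ (D + 1)) :
    ∃ f : (Fin N → Bool) → Bool, (∃ C : Circuit N, C.Monotone ∧ C.Layered (4 * vno D) ∧
      C.size ≤ 16 * N * vno D ∧ ∀ x, C.eval x = f x) ∧ LowFun D N (N / vno D) f := by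
  classical
  obtain ⟨k, hk⟩ : ∃ k, k = Nat.clog 2 (D + 1) := ⟨_, rfl⟩
  have hk1 : D + 1 ≤ 2 ^ k := by rw [hk]; exact Nat.le_pow_clog (by norm_num) _
  have hk2 : 2 ^ k ≤ 2 * (D + 1) := by
    rw [hk]
    rcases Nat.eq_zero_or_pos D with h | h
    · subst h; simp
    · have := Nat.pow_pred_clog_lt_self (b := 2) (by norm_num) (x := D + 1) (by omega)
      have h2 : 1 ≤ Nat.clog 2 (D + 1) := Nat.clog_pos (by norm_num) (by omega)
      obtain ⟨c, hc⟩ : ∃ c, Nat.clog 2 (D + 1) = c + 1 := ⟨Nat.clog 2 (D + 1) - 1, by omega⟩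
      rw [hc] at this ⊢
      simp only [Nat.pred_eq_sub_one, Nat.add_sub_cancel] at this
      rw [pow_succ]
      omega
  have hk3 : k ≤ Nat.log 2 (D + 1) + 1 := by
    have h1 : D + 1 < 2 ^ (Nat.log 2 (D + 1) + 1) := Nat.lt_pow_succ_log_self (by norm_num) _
    rw [hk]
    exact Nat.clog_le_of_le_pow h1.le
  obtain ⟨V, dV, fV, P, t, lvl, h1, h2, h3, h4, h5⟩ := exists_hard k
  obtain ⟨u, hu⟩ : ∃ u, u = 128 * (k + 5) ^ 2 := ⟨_, rfl⟩
  have hu1 : 1 ≤ u := by rw [hu]; exact Nat.mul_pos (by norm_num) (by positivity)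
  have hcV : Fintype.card V ≤ 2 ^ k * u := by
    rw [hu]
    calc Fintype.card V ≤ 128 * 2 ^ k * (k + 5) ^ 2 := h3
      _ = 2 ^ k * (128 * (k + 5) ^ 2) := by ring
  have hcard0 : Fintype.card V * (16 * u) ^ 3 + 16 * u ≤ vno D := by
    refine (num_aux Nat.one_le_two_pow hcV).trans ?_
    calc 4112 * (2 ^ k * u ^ 4) = (4112 * 2 ^ 28) * (2 ^ k * (k + 5) ^ 8) := by rw [hu]; ring
      _ ≤ 2 ^ 41 * (2 * (D + 1) * (Nat.log 2 (D + 1) + 6) ^ 8) := by
        refine Nat.mul_le_mul (by norm_num) (Nat.mul_le_mul hk2 (Nat.pow_le_pow_left ?_ 8))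
        omega
      _ = vno D := by unfold vno; ring
  have hpos : 0 < vno D := vno_pos D
  obtain ⟨M, hM⟩ : ∃ M, M = N / vno D := ⟨_, rfl⟩
  have hM1 : 1 ≤ M := by
    rw [hM, Nat.le_div_iff_mul_le hpos]
    omega
  have hMN : M * vno D ≤ N := by rw [hM]; exact Nat.div_mul_le_self _ _
  rw [← hM]
  have hq0 : 0 < 16 * u := by omega
  have hcard : Fintype.card (Fin M × PVar P (16 * u)) ≤ Fintype.card (Fin N) := by
    rw [Fintype.card_prod, Fintype.card_fin, Fintype.card_fin]
    exact (Nat.mul_le_mul_left M ((card_pvar' h1 hq0).trans hcard0)).trans hMN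
  obtain ⟨e⟩ := Function.Embedding.nonempty_of_card_le hcard
  have hd : 2 ^ k - 1 + 1 = 2 ^ k := by
    have : 1 ≤ 2 ^ k := Nat.one_le_two_pow
    omega
  refine ⟨orPeb P t (16 * u) M e, ?_, ?_⟩
  · have hblk : ∀ J : Fin M, ∃ C : Circuit N, C.Monotone ∧ C.size ≤ 3 * vno D ∧
        ∀ x, C.eval x = true ↔ pebF P t (16 * u) (fun r => x (e (J, r))) := by
      intro J
      obtain ⟨L, hL, hlen, hav⟩ := orPeb_prog (t := t) hq0 h1 lvl h2 1 (by norm_num)
        (fun p : Fin 1 × PVar P (16 * u) => e (J, p.2))
      have hval : ∀ x, orPeb P t (16 * u) 1 (fun p : Fin 1 × PVar P (16 * u) => e (J, p.2)) x =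
          true ↔ pebF P t (16 * u) (fun r => x (e (J, r))) := by
        intro x
        unfold orPeb
        rw [decide_eq_true_iff]
        exact ⟨fun ⟨_, h⟩ => h, fun h => ⟨0, h⟩⟩
      have hlen2 : L.length + 1 ≤ 3 * vno D := by
        have : 3 * Fintype.card V * (16 * u) ^ 3 = 3 * (Fintype.card V * (16 * u) ^ 3) := by ring
        omega
      rcases hav with ⟨p, hp⟩ | hmem
      · obtain ⟨C, c1, c2, c3⟩ := SP.toCirc (f := orPeb P t (16 * u) 1
            (fun p : Fin 1 × PVar P (16 * u) => e (J, p.2))) (g := 1) (fun _ => true)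
          (fun _ => Sum.inl p) (fun _ => Sum.inl p) (fun x _ => x p) 0
          (by
            intro i k hk
            rcases hk with hk | hk <;> exact absurd hk (by simp))
          (by
            intro x i
            simp)
          (by
            intro x
            rw [hp])
        exact ⟨C, c1, by omega, fun x => by rw [c3]; exact hval x⟩
      · obtain ⟨b, l, r, v, o, h1, h2, h3⟩ := prog_circuit hL _ hmem
        obtain ⟨C, c1, c2, c3⟩ := SP.toCirc b l r v o h1 h2 h3
        exact ⟨C, c1, by omega, fun x => by rw [c3]; exact hval x⟩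
    choose Cb hb1 hb2 hb3 using hblk
    obtain ⟨C, c1, c2, c3, c4⟩ := or_layered (s := 4 * vno D - 1) hM1 Cb hb1 (fun J => by
      have := hb2 J
      omega)
    have hs : 4 * vno D - 1 + 1 = 4 * vno D := by omega
    rw [hs] at c2 c3
    refine ⟨C, c1, c2, c3.trans ?_, fun x => ?_⟩
    · calc M * (4 * vno D) * (4 * vno D) = 16 * (M * vno D) * vno D := by ring
        _ ≤ 16 * N * vno D := Nat.mul_le_mul_right _ (Nat.mul_le_mul_left _ hMN)
    · rw [Bool.eq_iff_iff, c4]
      unfold orPeb
      rw [decide_eq_true_iff]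
      exact exists_congr fun J => hb3 J x
  · intro s T w a dep hdep htop op hmon val inp hinp hval o ho
    have hinp' : ∀ x i, inp x i = fun j => Sum.elim x (val x) (a i j) :=
      fun x i => funext (fun j => hinp x i j)
    have hval' : ∀ x i, val x i = op i (fun j => Sum.elim x (val x) (a i j)) :=
      fun x i => by rw [hval, hinp']
    have hchain : ∑ i ∈ T, w i < 2 ^ (D + 1) → ∃ x : ℕ → Fin N → Bool,
        (∀ i < M, x i ≤ x (i + 1) ∧ ∃ t ∈ T, ∃ j,
          Sum.elim (x i) (val (x i)) (a t j) ≠ Sum.elim (x (i + 1)) (val (x (i + 1))) (a t j)) ∧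
          ∀ i ≤ M, val (x i) o = false :=
      dep_chain' hu1 lvl h2 h5 (by rw [hd]; exact hcV) (by rw [hd]; exact h4) D M (by omega) e
        e.injective (fun i => (hdep i).1)
        (fun i j k h => (htop i j k h).2) hmon (fun i => (hdep i).2) val hval' o ho
    by_cases hT : ∑ i ∈ T, w i < 2 ^ (D + 1)
    · obtain ⟨x, hx, -⟩ := hchain hT
      obtain ⟨C, -, -, -, c4, c5⟩ := to_circuit_iff T w a op
        (fun i j k h => (htop i j k h).1) hmon (fun p (x : Fin N → Bool) => x p) val hval' s le_rfl
      have hTf : T.filter (fun i => i.val < s) = T :=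
        Finset.filter_true_of_mem (fun i _ => i.isLt)
      rw [hTf] at c4
      rw [← c4]
      refine C.chain_le M (fun i => x i) (fun i hi => (hx i hi).1) (fun i hi h => ?_)
      obtain ⟨-, t, ht, j, hj⟩ := hx i hi
      exact hj ((c5 _ _).mp h t ht t.isLt j)
    · have h1 : ∀ S : Finset (Fin s), 1 + ∑ i ∈ S, w i ≤ ∏ i ∈ S, (w i + 1) := by
        intro S
        induction S using Finset.induction_on with
        | empty => simp
        | insert i S hi ih =>
          rw [Finset.sum_insert hi, Finset.prod_insert hi]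
          nlinarith [Nat.zero_le (w i), Nat.zero_le (∑ i ∈ S, w i)]
      have h2 := h1 T
      have h3 : M ≤ N := by rw [hM]; exact Nat.div_le_self _ _
      omega

/-- The lower bound on slices, for circuits of small width. -/
theorem hard_slicesL (D t r U : ℕ) (hU : U = 2 ^ t * vno D) (hD : U < 2 ^ (D + 1)) :
    ∃ C : Circuit (U + r), C.Monotone ∧ C.Layered (4 * vno D) ∧ C.size ≤ 16 * U * vno D ∧
      ∀ k ≤ r, ∀ C' : Circuit (U + r), C'.nots ≤ t → C'.depth < D →
        ∃ x, k ≤ wt x ∧ wt x ≤ k + U ∧ C'.eval x ≠ C.eval x := by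
  have hv := vno_pos D
  have hU' : vno D ≤ U := by rw [hU]; exact Nat.le_mul_of_pos_left _ (by positivity)
  obtain ⟨f, ⟨C, c1, c2, c3, c4⟩, hlow⟩ := hardFunL D U hU' hD
  have h5 : U / vno D = 2 ^ t := Nat.div_eq_of_eq_mul_left hv hU
  rw [h5] at hlow
  refine ⟨ren (Fin.castAdd r) C, ?_, ?_, c3, fun k hk C' hn hd => ?_⟩
  · intro i hi a h
    have hg : (ren (Fin.castAdd r) C).gate i = renG (Fin.castAdd r) (C.gate i) := rfl
    rw [hg] at h
    have := c1 i hi
    cases hc : C.gate i with
    | and a b => rw [hc] at h; simp [renG] at h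
    | or a b => rw [hc] at h; simp [renG] at h
    | not a => exact this a hc
  · obtain ⟨d, lay, h1, h2, ⟨o, ho, ho2, ho3⟩, h4⟩ := c2
    refine ⟨d, lay, h1, fun i hi j hj => ?_, ⟨o, ho, ?_, ho3⟩, h4⟩
    · refine h2 i hi j ?_
      have hg : (ren (Fin.castAdd r) C).gate i = renG (Fin.castAdd r) (C.gate i) := rfl
      rw [hg, renG_wires] at hj
      exact hj
    · show renN (Fin.castAdd r) C.out = _
      rw [ho2]
      rfl
  · by_contra hcon
    push Not at hcon
    obtain ⟨C'', c1', c2', c3'⟩ := subs_exists (m := U) C'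
      (fun i y => PT.ext (r := r) k y i) (fun i => by
      refine Fin.addCases (fun j => ?_) (fun j => ?_) i
      · left
        exact ⟨j, funext fun y => by simp only [PT.ext, Fin.append_left]⟩
      · right
        exact ⟨decide (j.val < k), funext fun y => by simp only [PT.ext, Fin.append_right]⟩)
    have h4 := low_of (by omega) hlow C'' (fun y => by
      have hw := wt_ext (r := r) hk y
      have hy := wt_le y
      rw [c3', ← c4]
      show C'.eval (PT.ext (r := r) k y) = C.eval y
      rw [hcon _ (by omega) (by omega)]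
      apply ren_eval
      intro i _
      simp only [PT.ext, Fin.append_left]) (by omega)
    have h6 := (Nat.pow_lt_pow_iff_right (by norm_num)).mp h4
    omega

end Pool.Agent.W953.SC
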